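import Pool.Agent.H175G.Stmts2

/-! `NDML2Stmt` of the (gem, `P₂+P₃`) project (task T18b of helper175). -/

namespace Pool.Agent.H867.ND
open Finset Classical Pool.Agent.H175G
variable {V : Type}

section facts
set_option linter.unusedSectionVars false
set_option linter.unusedVariables false
variable {G : SimpleGraph V} (hg : NoGem G) (hp : NoP23 G) {c0 c1 c2 c3 c4 : V}
  (hc : C5c G c0 c1 c2 c3 c4)
include hg hp hc

lemma f1 {n n' : V} (h1 : TN G c0 c1 c2 c3 c4 n) (h2 : TN G c0 c1 c2 c3 c4 n') : ¬ G.Adj n n' := by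
  intro h; gp

lemma f2 {x y z : V} (h1 : TD G c0 c1 c2 c3 c4 x) (h2 : TD G c0 c1 c2 c3 c4 y)
    (h3 : TD G c0 c1 c2 c3 c4 z) (hxy : G.Adj x y) (hyz : G.Adj y z) (hne : x ≠ z) :
    G.Adj x z := by
  by_contra h; gp

lemma f3 {d n n' : V} (h1 : TD G c0 c1 c2 c3 c4 d) (h2 : TN G c0 c1 c2 c3 c4 n)
    (h3 : TN G c0 c1 c2 c3 c4 n') (h : G.Adj n d) (h' : G.Adj n' d) : n = n' := by
  by_contra hne
  have := f1 hg hp hc h2 h3
  gp

lemma f4 {d d' n : V} (h1 : TD G c0 c1 c2 c3 c4 d) (h1' : TD G c0 c1 c2 c3 c4 d')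
    (h2 : TN G c0 c1 c2 c3 c4 n) (h : G.Adj n d) (h' : G.Adj d d') : G.Adj n d' := by
  by_contra hne
  have : n ≠ d' := by rintro rfl; exact h1'.2.1 |> h2.2.1
  gp

lemma f5 {d m m' : V} (h1 : TD G c0 c1 c2 c3 c4 d) (h2 : TM G c0 c1 c2 c3 c4 m)
    (h3 : TM G c0 c1 c2 c3 c4 m') (h : ¬ G.Adj d m) (h' : ¬ G.Adj d m') : m = m' := by
  by_contra hne
  gp 2

lemma f5' {d d' m : V} (h1 : TD G c0 c1 c2 c3 c4 d) (h1' : TD G c0 c1 c2 c3 c4 d')
    (h2 : TM G c0 c1 c2 c3 c4 m)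
    (h : ¬ G.Adj d m) (h' : ¬ G.Adj d' m) : d = d' := by
  by_contra hne
  gp 2

lemma f6 {d m n : V} (h1 : TD G c0 c1 c2 c3 c4 d) (h2 : TM G c0 c1 c2 c3 c4 m)
    (h3 : TN G c0 c1 c2 c3 c4 n) (h : ¬ G.Adj d m) : G.Adj n d ↔ G.Adj n m := by
  constructor
  · intro h4; by_contra h5; gp 2
  · intro h4; by_contra h5; gp 2

lemma f7 {d m m' : V} (h1 : TD G c0 c1 c2 c3 c4 d) (h2 : TM G c2 c3 c4 c0 c1 m)
    (h3 : TM G c2 c3 c4 c0 c1 m') (h : G.Adj d m) : G.Adj d m' := by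
  by_contra h'
  gp 2

lemma f10 {m m2 : V} (h2 : TM G c0 c1 c2 c3 c4 m) (h3 : TM G c2 c3 c4 c0 c1 m2) :
    ¬ G.Adj m m2 := by
  intro h'
  gp 3

lemma f11 {d d' m n : V} (h1 : TD G c0 c1 c2 c3 c4 d) (h1' : TD G c0 c1 c2 c3 c4 d')
    (h2 : TM G c0 c1 c2 c3 c4 m)
    (h4 : TN G c0 c1 c2 c3 c4 n)
    (h : ¬ G.Adj d m) (h5 : G.Adj d d') : ¬ G.Adj n d := by
  intro h'
  have := (f6 hg hp hc h1 h2 h4 h).1 h'
  have := f4 hg hp hc h1 h1' h4 h' h5
  gp 3

lemma f12 {d d' m m0 : V} (h1 : TD G c0 c1 c2 c3 c4 d) (h1' : TD G c0 c1 c2 c3 c4 d')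
    (h2 : TM G c0 c1 c2 c3 c4 m) (h2' : TM G c0 c1 c2 c3 c4 m0)
    (h : ¬ G.Adj d m) (h5 : G.Adj d d') (h6 : G.Adj m m0) : ¬ G.Adj d' m0 := by
  intro h'
  have : d' ≠ d := h5.ne'
  gp 3

lemma g1 {d m m' n : V} (h1 : TD G c0 c1 c2 c3 c4 d) (h2 : TM G c0 c1 c2 c3 c4 m)
    (h2' : TM G c0 c1 c2 c3 c4 m')
    (h3 : TN G c0 c1 c2 c3 c4 n) (h : ¬ G.Adj d m) (h4 : G.Adj n d) (h5 : G.Adj n m)
    (h6 : G.Adj m m') : ¬ G.Adj n m' := by
  intro h7
  gp 3

lemma g2 {d d' m m' n n' x x' : V} (h1 : TD G c0 c1 c2 c3 c4 d) (h2 : TM G c0 c1 c2 c3 c4 m)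
    (h1' : TD G c0 c1 c2 c3 c4 d') (h2' : TM G c0 c1 c2 c3 c4 m')
    (h3 : TN G c0 c1 c2 c3 c4 n) (h3' : TN G c0 c1 c2 c3 c4 n')
    (h4 : TM G c0 c1 c2 c3 c4 x) (h4' : TM G c0 c1 c2 c3 c4 x')
    (h : ¬ G.Adj d m) (h' : ¬ G.Adj d' m') (h5 : G.Adj n d) (h5 : G.Adj n m)
    (h6 : G.Adj n' d') (h6 : G.Adj n' m') (hdd : ¬ G.Adj d d') (hne : d ≠ d') (hne' : m ≠ m')
    (hdm : G.Adj d m') (hdm' : G.Adj d' m)
    (h7 : G.Adj m x) (h7' : G.Adj m' x') : G.Adj m m' := by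
  by_contra h8
  have k1 := g1 hg hp hc h1 h2 h4 h3 h ‹_› ‹_› h7
  have k2 := g1 hg hp hc h1' h2' h4' h3' h' ‹_› ‹_› h7'
  gp 3

lemma g3 {d d' d'' m m' m'' n n' n'' : V} (h1 : TD G c0 c1 c2 c3 c4 d) (h2 : TM G c0 c1 c2 c3 c4 m)
    (h1' : TD G c0 c1 c2 c3 c4 d') (h2' : TM G c0 c1 c2 c3 c4 m')
    (h1'' : TD G c0 c1 c2 c3 c4 d'') (h2'' : TM G c0 c1 c2 c3 c4 m'')
    (h3 : TN G c0 c1 c2 c3 c4 n) (h3' : TN G c0 c1 c2 c3 c4 n')
    (h3'' : TN G c0 c1 c2 c3 c4 n'')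
    (h : ¬ G.Adj d m) (h' : ¬ G.Adj d' m') (h'' : ¬ G.Adj d'' m'') (h5 : G.Adj n d) (h5' : G.Adj n m)
    (h6 : G.Adj n' d') (h6' : G.Adj n' m')
    (h66 : G.Adj n'' d'') (h66' : G.Adj n'' m'')
    (hd : G.Adj d m') (hd' : G.Adj d m'') (he : G.Adj d' m) (he' : G.Adj d' m'')
    (hf : G.Adj d'' m) (hf' : G.Adj d'' m')
    (hdd : ¬ G.Adj d d') (hdd' : ¬ G.Adj d d'') (hdd'' : ¬ G.Adj d' d'')
    (hm : G.Adj m m') (hm' : G.Adj m m'') (hm'' : G.Adj m' m'') : False := by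
  have k1 := g1 hg hp hc h1 h2 h2' h3 h ‹_› ‹_› hm
  have k2 := g1 hg hp hc h1 h2 h2'' h3 h ‹_› ‹_› hm'
  have k3 := g1 hg hp hc h1' h2' h2 h3' h' ‹_› ‹_› hm.symm
  have k4 := g1 hg hp hc h1' h2' h2'' h3' h' ‹_› ‹_› hm''
  have k5 := g1 hg hp hc h1'' h2'' h2 h3'' h'' ‹_› ‹_› hm'.symm
  have k6 := g1 hg hp hc h1'' h2'' h2' h3'' h'' ‹_› ‹_› hm''.symm
  gp 3

end facts

/-! ### blocks -/

/-- the block of a vertex of `D₀` -/
noncomputable def bd (G : SimpleGraph V) (N D0 M0 : Finset V) (d : V) : V ⊕ Finset V :=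
  if h : ∃ n ∈ N, G.Adj n d then Sum.inl h.choose
  else if h : (∀ y ∈ D0, ¬ G.Adj d y) ∧ ∃ m ∈ M0, ¬ G.Adj d m then Sum.inl h.2.choose
  else Sum.inr (D0.filter (fun y => y = d ∨ G.Adj d y))

/-- `m` is linked to a vertex that is not isolated or has a neighbour in `N` -/
def inW (G : SimpleGraph V) (N D0 : Finset V) (m : V) : Prop :=
  ∃ d ∈ D0, ¬ G.Adj d m ∧ ((∃ y ∈ D0, G.Adj d y) ∨ ∃ n ∈ N, G.Adj n d)

/-- the vertex linked to `m` -/
noncomputable def lk (G : SimpleGraph V) (N D0 : Finset V) (m : V) : V :=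
  if h : inW G N D0 m then h.choose else m

noncomputable def bb (G : SimpleGraph V) (N D0 M0 : Finset V) (x : V) : V ⊕ Finset V :=
  if x ∈ D0 then bd G N D0 M0 x
  else if x ∈ M0 ∧ inW G N D0 x then bd G N D0 M0 (lk G N D0 x) else Sum.inl x

section main
variable {G : SimpleGraph V} {c0 c1 c2 c3 c4 : V} {N D0 M0 M2 : Finset V}

lemma lk_spec {m : V} (h : inW G N D0 m) : lk G N D0 m ∈ D0 ∧ ¬ G.Adj (lk G N D0 m) m ∧
    ((∃ y ∈ D0, G.Adj (lk G N D0 m) y) ∨ ∃ n ∈ N, G.Adj n (lk G N D0 m)) := by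
  unfold lk
  rw [dif_pos h]
  exact h.choose_spec

/-- a set of vertices adjacent to `p`, together with `p` -/
lemma bd_star (hg : NoGem G) {A : Finset V} {p : V} (h : ∀ x ∈ A, x = p ∨ G.Adj p x) :
    BD G 4 A := by
  have h1 : BD G 1 (A \ {p}) := by
    refine BD.cograph (p4free_of_nb hg (v := p) ?_)
    intro x hx
    rw [mem_sdiff, mem_singleton] at hx
    exact (h x hx.1).resolve_left hx.2
  have := BD.of_sdiff h1 (c := 1) (by simp)
  exact this.mono (by norm_num)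

section
set_option linter.unusedSectionVars false
variable (hg : NoGem G) (hp : NoP23 G) (hc : C5c G c0 c1 c2 c3 c4)
  (hN : ∀ x ∈ N, TN G c0 c1 c2 c3 c4 x) (hD : ∀ x ∈ D0, TD G c0 c1 c2 c3 c4 x)
  (hM : ∀ x ∈ M0, TM G c0 c1 c2 c3 c4 x) (hM2 : ∀ x ∈ M2, TM G c2 c3 c4 c0 c1 x)
include hg hp hc hN hD hM hM2

lemma bd_n {n d : V} (hn : n ∈ N) (hd : d ∈ D0) (h : G.Adj n d) :
    bd G N D0 M0 d = Sum.inl n := by
  have hex : ∃ n ∈ N, G.Adj n d := ⟨n, hn, h⟩
  unfold bd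
  rw [dif_pos hex]
  congr 1
  exact f3 hg hp hc (hD d hd) (hN _ hex.choose_spec.1) (hN n hn) hex.choose_spec.2 h

lemma bd_m {m d : V} (hm : m ∈ M0) (hd : d ∈ D0) (h : ¬ G.Adj d m)
    (hno : ¬ ∃ n ∈ N, G.Adj n d) (hiso : ∀ y ∈ D0, ¬ G.Adj d y) :
    bd G N D0 M0 d = Sum.inl m := by
  have hex : (∀ y ∈ D0, ¬ G.Adj d y) ∧ ∃ m ∈ M0, ¬ G.Adj d m := ⟨hiso, m, hm, h⟩
  unfold bd
  rw [dif_neg hno, dif_pos hex]
  congr 1
  exact f5 hg hp hc (hD d hd) (hM _ hex.2.choose_spec.1) (hM m hm) hex.2.choose_spec.2 h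

lemma bd_c {d : V} (hno : ¬ ∃ n ∈ N, G.Adj n d)
    (hex : ¬ ((∀ y ∈ D0, ¬ G.Adj d y) ∧ ∃ m ∈ M0, ¬ G.Adj d m)) :
    bd G N D0 M0 d = Sum.inr (D0.filter (fun y => y = d ∨ G.Adj d y)) := by
  unfold bd
  rw [dif_neg hno, dif_neg hex]

lemma cp_adj {d d' : V} (hd : d ∈ D0) (hd' : d' ∈ D0) (h : G.Adj d d') :
    D0.filter (fun y => y = d ∨ G.Adj d y) = D0.filter (fun y => y = d' ∨ G.Adj d' y) := by
  ext y
  simp only [mem_filter]
  constructor
  · rintro ⟨hy, h1⟩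
    refine ⟨hy, ?_⟩
    rcases h1 with rfl | h1
    · exact Or.inr h.symm
    · by_cases hyd : y = d'
      · exact Or.inl hyd
      · exact Or.inr (f2 hg hp hc (hD d' hd') (hD d hd) (hD y hy) h.symm h1 (Ne.symm hyd))
  · rintro ⟨hy, h1⟩
    refine ⟨hy, ?_⟩
    rcases h1 with rfl | h1
    · exact Or.inr h
    · by_cases hyd : y = d
      · exact Or.inl hyd
      · exact Or.inr (f2 hg hp hc (hD d hd) (hD d' hd') (hD y hy) h h1 (Ne.symm hyd))

lemma bd_adj {d d' : V} (hd : d ∈ D0) (hd' : d' ∈ D0) (h : G.Adj d d') :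
    bd G N D0 M0 d = bd G N D0 M0 d' := by
  by_cases hex : ∃ n ∈ N, G.Adj n d
  · obtain ⟨n, hn, h1⟩ := hex
    rw [bd_n hg hp hc hN hD hM hM2 hn hd h1, bd_n hg hp hc hN hD hM hM2 hn hd'
      (f4 hg hp hc (hD d hd) (hD d' hd') (hN n hn) h1 h)]
  · have hex' : ¬ ∃ n ∈ N, G.Adj n d' := by
      rintro ⟨n, hn, h1⟩
      exact hex ⟨n, hn, f4 hg hp hc (hD d' hd') (hD d hd) (hN n hn) h1 h.symm⟩
    rw [bd_c hg hp hc hN hD hM hM2 hex (fun hh => hh.1 d' hd' h),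
      bd_c hg hp hc hN hD hM hM2 hex' (fun hh => hh.1 d hd h.symm),
      cp_adj hg hp hc hN hD hM hM2 hd hd' h]

lemma lk_eq {m d : V} (hm : m ∈ M0) (h : inW G N D0 m) (hd : d ∈ D0) (h1 : ¬ G.Adj d m) :
    lk G N D0 m = d := by
  obtain ⟨h2, h3, _⟩ := lk_spec h
  exact f5' hg hp hc (hD _ h2) (hD d hd) (hM m hm) h3 h1

lemma disj_DN {x : V} (hx : x ∈ D0) : x ∉ N := fun h => (hN x h).2.1 (hD x hx).2.1
lemma disj_DM {x : V} (hx : x ∈ D0) : x ∉ M0 := fun h => (hM x h).2.1 (hD x hx).2.1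
lemma disj_DM2 {x : V} (hx : x ∈ D0) : x ∉ M2 := fun h => (hM2 x h).2.2.2.2 (hD x hx).2.1
lemma disj_NM {x : V} (hx : x ∈ N) : x ∉ M0 := fun h => (hN x hx).1 (hM x h).1
lemma disj_NM2 {x : V} (hx : x ∈ N) : x ∉ M2 := fun h => (hN x hx).2.2.1 (hM2 x h).1
lemma disj_MM2 {x : V} (hx : x ∈ M0) : x ∉ M2 := fun h => (hM2 x h).2.1 (hM x hx).2.2.2.1

/-- a link inside a block -/
lemma bb_link {d m : V} (hd : d ∈ D0) (hm : m ∈ M0) (h : ¬ G.Adj d m) :
    bb G N D0 M0 m = bb G N D0 M0 d := by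
  have hmD : m ∉ D0 := fun hh => disj_DM hg hp hc hN hD hM hM2 hh hm
  unfold bb
  rw [if_pos hd, if_neg hmD]
  by_cases hw : inW G N D0 m
  · rw [if_pos ⟨hm, hw⟩, lk_eq hg hp hc hN hD hM hM2 hm hw hd h]
  · rw [if_neg (fun hh => hw hh.2)]
    have h1 : ¬ ∃ n ∈ N, G.Adj n d := fun hh => hw ⟨d, hd, h, Or.inr hh⟩
    have h2 : ∀ y ∈ D0, ¬ G.Adj d y := fun y hy hh => hw ⟨d, hd, h, Or.inl ⟨y, hy, hh⟩⟩
    rw [bd_m hg hp hc hN hD hM hM2 hm hd h h1 h2]

/-- members of an `inl` block outside `D₀` -/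
lemma bb_inl {y p : V} (_hy : y ∈ N ∪ D0 ∪ M0 ∪ M2) (h : bb G N D0 M0 y = Sum.inl p) :
    y = p ∨ G.Adj p y ∨ (p ∈ M0 ∧ y ∈ D0 ∧ ¬ G.Adj y p) := by
  unfold bb at h
  split_ifs at h with h1 h2
  · by_cases hex : ∃ n ∈ N, G.Adj n y
    · obtain ⟨n, hn, h3⟩ := hex
      rw [bd_n hg hp hc hN hD hM hM2 hn h1 h3] at h
      injection h with h
      subst h
      exact Or.inr (Or.inl h3)
    · by_cases hex2 : (∀ z ∈ D0, ¬ G.Adj y z) ∧ ∃ m ∈ M0, ¬ G.Adj y m
      · obtain ⟨h3, m, hm, h4⟩ := hex2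
        rw [bd_m hg hp hc hN hD hM hM2 hm h1 h4 hex h3] at h
        injection h with h
        subst h
        exact Or.inr (Or.inr ⟨hm, h1, h4⟩)
      · rw [bd_c hg hp hc hN hD hM hM2 hex hex2] at h
        exact absurd h (by simp)
  · obtain ⟨h3, h4, h5⟩ := lk_spec h2.2
    by_cases hex : ∃ n ∈ N, G.Adj n (lk G N D0 y)
    · obtain ⟨n, hn, h6⟩ := hex
      rw [bd_n hg hp hc hN hD hM hM2 hn h3 h6] at h
      injection h with h
      subst h
      exact Or.inr (Or.inl ((f6 hg hp hc (hD _ h3) (hM y h2.1) (hN n hn) h4).1 h6))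
    · have h7 := h5.resolve_right hex
      obtain ⟨z, hz, h8⟩ := h7
      rw [bd_c hg hp hc hN hD hM hM2 hex (fun hh => hh.1 z hz h8)] at h
      exact absurd h (by simp)
  · injection h with h
    exact Or.inl h

lemma bb_V0 {x : V} (hx : x ∈ N ∪ M0.filter (fun m => ¬ inW G N D0 m) ∪ M2) :
    bb G N D0 M0 x = Sum.inl x := by
  have h1 : x ∉ D0 := by
    intro h
    simp only [mem_union, mem_filter] at hx
    rcases hx with (hx | hx) | hx
    · exact disj_DN hg hp hc hN hD hM hM2 h hx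
    · exact disj_DM hg hp hc hN hD hM hM2 h hx.1
    · exact disj_DM2 hg hp hc hN hD hM hM2 h hx
  have h2 : ¬ (x ∈ M0 ∧ inW G N D0 x) := by
    intro h
    simp only [mem_union, mem_filter] at hx
    rcases hx with (hx | hx) | hx
    · exact disj_NM hg hp hc hN hD hM hM2 hx h.1
    · exact hx.2 h.2
    · exact disj_MM2 hg hp hc hN hD hM hM2 h.1 hx
  unfold bb
  rw [if_neg h1, if_neg h2]

/-- members of an `inr` block -/
lemma bb_inr {y : V} {S : Finset V} (h : bb G N D0 M0 y = Sum.inr S) :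
    (y ∈ D0 ∧ S = D0.filter (fun z => z = y ∨ G.Adj y z)) ∨
    (y ∈ M0 ∧ y ∉ D0 ∧ inW G N D0 y ∧
      S = D0.filter (fun z => z = lk G N D0 y ∨ G.Adj (lk G N D0 y) z) ∧
      ∃ z ∈ D0, G.Adj (lk G N D0 y) z) := by
  have key : ∀ d ∈ D0, bd G N D0 M0 d = Sum.inr S →
      S = D0.filter (fun z => z = d ∨ G.Adj d z) ∧ ¬ ∃ n ∈ N, G.Adj n d := by
    intro d hd h
    by_cases hex : ∃ n ∈ N, G.Adj n d
    · obtain ⟨n, hn, h3⟩ := hex
      rw [bd_n hg hp hc hN hD hM hM2 hn hd h3] at h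
      exact absurd h (by simp)
    · by_cases hex2 : (∀ z ∈ D0, ¬ G.Adj d z) ∧ ∃ m ∈ M0, ¬ G.Adj d m
      · obtain ⟨h3, m, hm, h4⟩ := hex2
        rw [bd_m hg hp hc hN hD hM hM2 hm hd h4 hex h3] at h
        exact absurd h (by simp)
      · rw [bd_c hg hp hc hN hD hM hM2 hex hex2] at h
        injection h with h
        exact ⟨h.symm, hex⟩
  unfold bb at h
  split_ifs at h with h1 h2
  · exact Or.inl ⟨h1, (key y h1 h).1⟩
  · obtain ⟨h3, h4, h5⟩ := lk_spec h2.2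
    obtain ⟨h6, h7⟩ := key _ h3 h
    exact Or.inr ⟨h2.1, h1, h2.2, h6, h5.resolve_right h7⟩

/-- blocks of the first kind -/
lemma block_inl (p : V) :
    BD G 4 ((N ∪ D0 ∪ M0 ∪ M2).filter (fun y => bb G N D0 M0 y = Sum.inl p)) := by
  by_cases hpM : p ∈ M0
  · -- at most two vertices in the part of `D₀`; handle by stars
    by_cases hex : ∃ y ∈ D0, ¬ G.Adj y p
    · obtain ⟨d, hd, h1⟩ := hex
      -- either `p` is in `V₀`, or it is in `W`
      have h2 : ∀ y ∈ (N ∪ D0 ∪ M0 ∪ M2).filter (fun y => bb G N D0 M0 y = Sum.inl p),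
          y = p ∨ y = d := by
        intro y hy
        rw [mem_filter] at hy
        obtain ⟨hy1, hy2⟩ := hy
        have h0 := hy2
        unfold bb at hy2
        split_ifs at hy2 with k1 k2
        · by_cases hex : ∃ n ∈ N, G.Adj n y
          · obtain ⟨n, hn, h3⟩ := hex
            rw [bd_n hg hp hc hN hD hM hM2 hn k1 h3] at hy2
            injection hy2 with hy2
            subst hy2
            exact absurd hpM (disj_NM hg hp hc hN hD hM hM2 hn)
          · by_cases hex2 : (∀ z ∈ D0, ¬ G.Adj y z) ∧ ∃ m ∈ M0, ¬ G.Adj y m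
            · obtain ⟨h3, m, hm, h4⟩ := hex2
              rw [bd_m hg hp hc hN hD hM hM2 hm k1 h4 hex h3] at hy2
              injection hy2 with hy2
              subst hy2
              exact Or.inr (f5' hg hp hc (hD y k1) (hD d hd) (hM m hm) h4 h1)
            · rw [bd_c hg hp hc hN hD hM hM2 hex hex2] at hy2
              exact absurd hy2 (by simp)
        · obtain ⟨h3, h4, h5⟩ := lk_spec k2.2
          by_cases hex : ∃ n ∈ N, G.Adj n (lk G N D0 y)
          · obtain ⟨n, hn, h6⟩ := hex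
            rw [bd_n hg hp hc hN hD hM hM2 hn h3 h6] at hy2
            injection hy2 with hy2
            subst hy2
            exact absurd hpM (disj_NM hg hp hc hN hD hM hM2 hn)
          · have h7 := h5.resolve_right hex
            obtain ⟨z, hz, h8⟩ := h7
            rw [bd_c hg hp hc hN hD hM hM2 hex (fun hh => hh.1 z hz h8)] at hy2
            exact absurd hy2 (by simp)
        · injection hy2 with hy2
          exact Or.inl hy2
      have h3 : ((N ∪ D0 ∪ M0 ∪ M2).filter (fun y => bb G N D0 M0 y = Sum.inl p)).card ≤ 2 := by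
        refine (card_le_card (t := {p, d}) ?_).trans card_le_two
        intro y hy
        rw [mem_insert, mem_singleton]
        exact h2 y hy
      exact (BD.card h3).mono (by norm_num)
    · refine bd_star hg (p := p) ?_
      intro y hy
      rw [mem_filter] at hy
      rcases bb_inl hg hp hc hN hD hM hM2 hy.1 hy.2 with h | h | h
      · exact Or.inl h
      · exact Or.inr h
      · exact absurd ⟨y, h.2.1, h.2.2⟩ hex
  · refine bd_star hg (p := p) ?_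
    intro y hy
    rw [mem_filter] at hy
    rcases bb_inl hg hp hc hN hD hM hM2 hy.1 hy.2 with h | h | h
    · exact Or.inl h
    · exact Or.inr h
    · exact absurd h.1 hpM

/-- blocks of the second kind -/
lemma block_inr {B : ℕ → ℕ → ℕ → ℕ}
    (hB : ∀ (V : Type) (G : SimpleGraph V) (Λ β : Type) [Fintype Λ] (K K' : ℕ)
    (V0 W : Finset V) (lab : V → Λ) (F : Λ → Λ → Prop) (b : V → β),
    BD G K V0 → (∀ x ∈ V0, ∀ y ∈ V0, b x = b y → x = y) →
    (∀ x ∈ V0 ∪ W, BD G K' ((V0 ∪ W).filter (fun y => b y = b x))) →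
    (∀ x ∈ W, ∀ y ∈ V0 ∪ W, b x ≠ b y → (G.Adj x y ↔ F (lab x) (lab y))) →
    BD G (B K K' (Fintype.card Λ)) (V0 ∪ W)) (R S : Finset V) :
    BD G (B 0 4 2 + 16) (R.filter (fun y => bb G N D0 M0 y = Sum.inr S)) := by
  set C := R.filter (fun y => bb G N D0 M0 y = Sum.inr S) with hCdef
  have hC : ∀ y ∈ C, (y ∈ D0 ∧ S = D0.filter (fun z => z = y ∨ G.Adj y z)) ∨
      (y ∈ M0 ∧ y ∉ D0 ∧ inW G N D0 y ∧
      S = D0.filter (fun z => z = lk G N D0 y ∨ G.Adj (lk G N D0 y) z) ∧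
      ∃ z ∈ D0, G.Adj (lk G N D0 y) z) := by
    intro y hy
    rw [hCdef, mem_filter] at hy
    exact bb_inr hg hp hc hN hD hM hM2 hy.2
  by_cases hadj : ∃ m ∈ C, ∃ m0 ∈ C, m ∈ M0 ∧ m0 ∈ M0 ∧ G.Adj m m0
  · obtain ⟨m, hmC, m0, hm0C, hm, hm0, hmm⟩ := hadj
    have hm' : m ∉ D0 := fun h => disj_DM hg hp hc hN hD hM hM2 h hm
    have hm0' : m0 ∉ D0 := fun h => disj_DM hg hp hc hN hD hM hM2 h hm0
    obtain ⟨_, _, hw, hS, z, hz, hdz⟩ := (hC m hmC).resolve_left (fun h => hm' h.1)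
    obtain ⟨_, _, hw0, hS0, _⟩ := (hC m0 hm0C).resolve_left (fun h => hm0' h.1)
    obtain ⟨hd, hdm, _⟩ := lk_spec hw
    obtain ⟨hd0, hdm0, _⟩ := lk_spec hw0
    generalize lk G N D0 m = d at *
    generalize lk G N D0 m0 = d0 at *
    have hnb : ∀ y ∈ D0, G.Adj d y → y = d0 := by
      intro y hy hdy
      have := f12 hg hp hc (hD d hd) (hD y hy) (hM m hm) (hM m0 hm0) hdm hdy hmm
      exact f5' hg hp hc (hD y hy) (hD d0 hd0) (hM m0 hm0) this hdm0
    have hsub : C ⊆ {d, d0, m, m0} := by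
      intro y hy
      simp only [mem_insert, mem_singleton]
      rcases hC y hy with ⟨h1, h2⟩ | ⟨h1, h2, h3, h4, _⟩
      · have h3 : y ∈ S := by rw [h2, mem_filter]; exact ⟨h1, Or.inl rfl⟩
        rw [hS, mem_filter] at h3
        rcases h3.2 with h4 | h4
        · exact Or.inl h4
        · exact Or.inr (Or.inl (hnb y h1 h4))
      · obtain ⟨k1, k2, _⟩ := lk_spec h3
        have h5 : lk G N D0 y ∈ S := by rw [h4, mem_filter]; exact ⟨k1, Or.inl rfl⟩
        rw [hS, mem_filter] at h5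
        rcases h5.2 with h6 | h6
        · rw [h6] at k2
          exact Or.inr (Or.inr (Or.inl (f5 hg hp hc (hD d hd) (hM y h1) (hM m hm) k2 hdm)))
        · rw [hnb _ k1 h6] at k2
          exact Or.inr (Or.inr (Or.inr (f5 hg hp hc (hD d0 hd0) (hM y h1) (hM m0 hm0) k2 hdm0)))
    have hcard : C.card ≤ 4 := (card_le_card hsub).trans card_le_four
    exact (BD.card hcard).mono (by norm_num)
  · push Not at hadj
    have h1 := hB V G Bool V 0 4 ∅ C (fun x => decide (x ∈ D0)) (fun a b => a = true ∨ b = true)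
      (fun y => if y ∈ D0 then y else lk G N D0 y) BD.empty (by simp) ?_ ?_
    · rw [empty_union] at h1
      exact h1.mono (by simp)
    · intro x _
      rw [empty_union]
      generalize (if x ∈ D0 then x else lk G N D0 x) = p
      by_cases hex : ∃ y0 ∈ C, y0 ∉ D0 ∧ lk G N D0 y0 = p
      · obtain ⟨y0, hy0, h2, h3⟩ := hex
        have hsub : C.filter (fun y => (if y ∈ D0 then y else lk G N D0 y) = p) ⊆ {p, y0} := by
          intro y hy
          rw [mem_filter] at hy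
          rw [mem_insert, mem_singleton]
          obtain ⟨hy1, hy2⟩ := hy
          split_ifs at hy2 with h4
          · exact Or.inl hy2
          · obtain ⟨k1, _, k2, _⟩ := (hC y hy1).resolve_left (fun h => h4 h.1)
            obtain ⟨k1', _, k2', _⟩ := (hC y0 hy0).resolve_left (fun h => h2 h.1)
            obtain ⟨l1, l2, _⟩ := lk_spec k2
            obtain ⟨l1', l2', _⟩ := lk_spec k2'
            rw [hy2] at l1 l2
            rw [h3] at l1' l2'
            exact Or.inr (f5 hg hp hc (hD p l1) (hM y k1) (hM y0 k1') l2 l2')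
        exact (BD.card ((card_le_card hsub).trans card_le_two)).mono (by norm_num)
      · have hsub : C.filter (fun y => (if y ∈ D0 then y else lk G N D0 y) = p) ⊆ {p} := by
          intro y hy
          rw [mem_filter] at hy
          rw [mem_singleton]
          obtain ⟨hy1, hy2⟩ := hy
          split_ifs at hy2 with h4
          · exact hy2
          · exact absurd ⟨y, hy1, h4, hy2⟩ hex
        exact (BD.card ((card_le_card hsub).trans (by simp : ({p} : Finset V).card ≤ 1))).mono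
          (by norm_num)
    · intro x hx y hy hxy
      rw [empty_union] at hy
      simp only [decide_eq_true_eq]
      by_cases hxD : x ∈ D0
      · simp only [hxD, if_true, true_or, iff_true] at hxy ⊢
        by_cases hyD : y ∈ D0
        · simp only [hyD, if_true] at hxy
          have k1 := ((hC x hx).resolve_right (fun h => h.2.1 hxD)).2
          have k2 := ((hC y hy).resolve_right (fun h => h.2.1 hyD)).2
          have k3 : y ∈ S := by rw [k2, mem_filter]; exact ⟨hyD, Or.inl rfl⟩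
          rw [k1, mem_filter] at k3
          exact k3.2.resolve_left (fun h => hxy h.symm)
        · simp only [hyD, if_false] at hxy
          obtain ⟨k1, _, k2, _⟩ := (hC y hy).resolve_left (fun h => hyD h.1)
          obtain ⟨l1, l2, _⟩ := lk_spec k2
          by_contra hcon
          exact hxy (f5' hg hp hc (hD x hxD) (hD _ l1) (hM y k1) hcon l2)
      · simp only [hxD, if_false] at hxy
        obtain ⟨k1, _, k2, _⟩ := (hC x hx).resolve_left (fun h => hxD h.1)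
        obtain ⟨l1, l2, _⟩ := lk_spec k2
        by_cases hyD : y ∈ D0
        · simp only [hyD, if_true, or_true, iff_true] at hxy ⊢
          by_contra hcon
          exact hxy (f5' hg hp hc (hD _ l1) (hD y hyD) (hM x k1) l2 (fun h => hcon h.symm))
        · simp only [hxD, hyD, or_self, iff_false]
          obtain ⟨k1', _⟩ := (hC y hy).resolve_left (fun h => hyD h.1)
          exact hadj x hx y hy k1 k1'

/-- the decomposition, when the linked vertices with a neighbour in `N` are isolated in `M₀` -/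
lemma core {B : ℕ → ℕ → ℕ → ℕ}
    (hB : ∀ (V : Type) (G : SimpleGraph V) (Λ β : Type) [Fintype Λ] (K K' : ℕ)
    (V0 W : Finset V) (lab : V → Λ) (F : Λ → Λ → Prop) (b : V → β),
    BD G K V0 → (∀ x ∈ V0, ∀ y ∈ V0, b x = b y → x = y) →
    (∀ x ∈ V0 ∪ W, BD G K' ((V0 ∪ W).filter (fun y => b y = b x))) →
    (∀ x ∈ W, ∀ y ∈ V0 ∪ W, b x ≠ b y → (G.Adj x y ↔ F (lab x) (lab y))) →
    BD G (B K K' (Fintype.card Λ)) (V0 ∪ W)) {K0 : ℕ}
    (hZ : ∀ (V : Type) (G : SimpleGraph V), NoGem G → NoP23 G → ∀ (v : V) (M N : Finset V),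
      ZCfg G v M N → BD G K0 (M ∪ N))
    (hbad : ∀ m ∈ M0, ∀ d ∈ D0, ¬ G.Adj d m → (∀ y ∈ D0, ¬ G.Adj d y) →
      (∃ n ∈ N, G.Adj n d) → ∀ x ∈ M0, ¬ G.Adj m x) :
    BD G (B K0 (B 0 4 2 + 16) 16) (N ∪ D0 ∪ M0 ∪ M2) := by
  set M0a := M0.filter (fun m => ¬ inW G N D0 m) with hM0a
  set M0b := M0.filter (fun m => inW G N D0 m) with hM0b
  have hunion : (N ∪ M0a ∪ M2) ∪ (D0 ∪ M0b) = N ∪ D0 ∪ M0 ∪ M2 := by
    ext x
    simp only [mem_union, hM0a, hM0b, mem_filter]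
    tauto
  rw [← hunion]
  have hV0 : ∀ x ∈ N ∪ M0a ∪ M2, bb G N D0 M0 x = Sum.inl x := fun x hx =>
    bb_V0 hg hp hc hN hD hM hM2 hx
  have hcard : Fintype.card (Bool × Bool × Bool × Bool) = 16 := by simp
  rw [← hcard]
  refine hB V G (Bool × Bool × Bool × Bool) (V ⊕ Finset V) K0 (B 0 4 2 + 16) (N ∪ M0a ∪ M2)
    (D0 ∪ M0b) (fun x => (decide (x ∈ D0), decide (x ∈ M0), decide (x ∈ M2),
      decide (∃ z ∈ M2, G.Adj x z)))
    (fun a b => (a.1 = true ∧ (b.2.1 = true ∨ (b.2.2.1 = true ∧ a.2.2.2 = true))) ∨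
      (a.1 = false ∧ b.1 = true)) (bb G N D0 M0) ?_ ?_ ?_ ?_
  · have h1 : BD G K0 ((M0a ∪ M2) ∪ N) := by
      refine hZ V G hg hp c0 (M0a ∪ M2) N ⟨?_, ?_, ?_, ?_⟩
      · intro m hm
        rw [mem_union, hM0a, mem_filter] at hm
        rcases hm with hm | hm
        · exact (hM m hm.1).1
        · exact (hM2 m hm).2.2.2.1
      · exact fun n hn => (hN n hn).1
      · exact fun x hx y hy => f1 hg hp hc (hN x hx) (hN y hy)
      · intro h
        exact (hN c0 h).2.1 hc.1.symm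
    have e : (M0a ∪ M2) ∪ N = N ∪ M0a ∪ M2 := by
      ext x; simp only [mem_union]; tauto
    rwa [e] at h1
  · intro x hx y hy h
    rw [hV0 x hx, hV0 y hy] at h
    injection h with h
  · intro x _
    rw [hunion]
    rcases hbx : bb G N D0 M0 x with p | S
    · have h := (block_inl (M2 := M2) hg hp hc hN hD hM hM2 p).mono
        (show 4 ≤ B 0 4 2 + 16 by omega)
      convert h
    · have h := block_inr hg hp hc hN hD hM hM2 hB (N ∪ D0 ∪ M0 ∪ M2) S
      convert h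
  · intro x hx y hy hxy
    rw [hunion] at hy
    simp only [decide_eq_true_eq, decide_eq_false_iff_not]
    have hxW : x ∈ D0 ∨ (x ∈ M0 ∧ inW G N D0 x) := by
      rw [mem_union, hM0b, mem_filter] at hx
      exact hx
    by_cases hxD : x ∈ D0
    · have hbx : bb G N D0 M0 x = bd G N D0 M0 x := by unfold bb; rw [if_pos hxD]
      simp only [hxD, true_and, not_true_eq_false, false_and, or_false]
      by_cases hyD : y ∈ D0
      · have h1 : y ∉ M0 := disj_DM hg hp hc hN hD hM hM2 hyD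
        have h2 : y ∉ M2 := disj_DM2 hg hp hc hN hD hM hM2 hyD
        simp only [h1, h2, false_or, false_and, iff_false]
        intro h3
        apply hxy
        have hby : bb G N D0 M0 y = bd G N D0 M0 y := by unfold bb; rw [if_pos hyD]
        rw [hbx, hby]
        exact bd_adj hg hp hc hN hD hM hM2 hxD hyD h3
      · by_cases hyM : y ∈ M0
        · simp only [hyM, true_or, iff_true]
          by_contra h3
          exact hxy (bb_link hg hp hc hN hD hM hM2 hxD hyM h3).symm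
        · by_cases hyM2 : y ∈ M2
          · simp only [hyM, hyM2, false_or, true_and]
            constructor
            · exact fun h3 => ⟨y, hyM2, h3⟩
            · rintro ⟨z, hz, h3⟩
              exact f7 hg hp hc (hD x hxD) (hM2 z hz) (hM2 y hyM2) h3
          · simp only [hyM, hyM2, false_and, or_self, iff_false]
            have hyN : y ∈ N := by
              simp only [mem_union] at hy
              tauto
            intro h3
            apply hxy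
            rw [hbx, bd_n hg hp hc hN hD hM hM2 hyN hxD h3.symm]
            exact (hV0 y (by simp [hyN])).symm
    · obtain ⟨hxM, hxw⟩ := hxW.resolve_left hxD
      simp only [hxD, false_and, not_false_eq_true, true_and, false_or]
      obtain ⟨k1, k2, k3⟩ := lk_spec hxw
      have hbx : bb G N D0 M0 x = bd G N D0 M0 (lk G N D0 x) := by
        unfold bb; rw [if_neg hxD, if_pos ⟨hxM, hxw⟩]
      by_cases hyD : y ∈ D0
      · simp only [hyD, iff_true]
        by_contra h3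
        exact hxy (bb_link hg hp hc hN hD hM hM2 hyD hxM (fun h => h3 h.symm))
      · simp only [hyD, iff_false]
        intro h3
        by_cases hyM : y ∈ M0
        · by_cases hiso : ∀ z ∈ D0, ¬ G.Adj (lk G N D0 x) z
          · have hn : ∃ n ∈ N, G.Adj n (lk G N D0 x) := by
              rcases k3 with ⟨z, hz, h4⟩ | h4
              · exact absurd h4 (hiso z hz)
              · exact h4
            exact hbad x hxM _ k1 k2 hiso hn y hyM h3
          · push Not at hiso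
            obtain ⟨z, hz, h4⟩ := hiso
            have h5 := f12 hg hp hc (hD _ k1) (hD z hz) (hM x hxM) (hM y hyM) k2 h4 h3
            apply hxy
            rw [hbx, bd_adj hg hp hc hN hD hM hM2 k1 hz h4,
              bb_link hg hp hc hN hD hM hM2 hz hyM h5]
            unfold bb
            rw [if_pos hz]
        · by_cases hyM2 : y ∈ M2
          · exact f10 hg hp hc (hM x hxM) (hM2 y hyM2) h3
          · have hyN : y ∈ N := by
              simp only [mem_union] at hy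
              tauto
            have h4 : G.Adj y (lk G N D0 x) :=
              (f6 hg hp hc (hD _ k1) (hM x hxM) (hN y hyN) k2).2 h3.symm
            apply hxy
            rw [hbx, bd_n hg hp hc hN hD hM hM2 hyN k1 h4]
            exact (hV0 y (by simp [hyN])).symm

/-- few bad vertices -/
lemma few_bad :
    (M0.filter (fun m => ∃ d ∈ D0, ¬ G.Adj d m ∧ (∀ y ∈ D0, ¬ G.Adj d y) ∧
      (∃ n ∈ N, G.Adj n d) ∧ ∃ x ∈ M0, G.Adj m x)).card ≤ 2 := by
  by_contra hcon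
  push Not at hcon
  obtain ⟨m, m', m'', hm, hm', hm'', h1, h2, h3⟩ := two_lt_card_iff.1 hcon
  rw [mem_filter] at hm hm' hm''
  obtain ⟨hmM, d, hd, hdm, hiso, ⟨n, hn, hnd⟩, x, hx, hmx⟩ := hm
  obtain ⟨hmM', d', hd', hdm', hiso', ⟨n', hn', hnd'⟩, x', hx', hmx'⟩ := hm'
  obtain ⟨hmM'', d'', hd'', hdm'', hiso'', ⟨n'', hn'', hnd''⟩, x'', hx'', hmx''⟩ := hm''
  have e1 : ∀ {d m : V}, d ∈ D0 → m ∈ M0 → ∀ {n : V}, n ∈ N → ¬ G.Adj d m → G.Adj n d →
      G.Adj n m := fun hd hm _ hn h h' => (f6 hg hp hc (hD _ hd) (hM _ hm) (hN _ hn) h).1 h'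
  have e2 : ∀ {d m m' : V}, d ∈ D0 → m ∈ M0 → m' ∈ M0 → ¬ G.Adj d m → m ≠ m' →
      G.Adj d m' := by
    intro d m m' hd hm hm' h hne
    by_contra hcon
    exact hne (f5 hg hp hc (hD _ hd) (hM _ hm) (hM _ hm') h hcon)
  have hdm1 := e2 hd hmM hmM' hdm h1
  have hdm2 := e2 hd hmM hmM'' hdm h2
  have hdm3 := e2 hd' hmM' hmM hdm' h1.symm
  have hdm4 := e2 hd' hmM' hmM'' hdm' h3
  have hdm5 := e2 hd'' hmM'' hmM hdm'' h2.symm
  have hdm6 := e2 hd'' hmM'' hmM' hdm'' h3.symm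
  have n1 : d ≠ d' := by rintro rfl; exact hdm hdm3
  have n2 : d ≠ d'' := by rintro rfl; exact hdm hdm5
  have n3 : d' ≠ d'' := by rintro rfl; exact hdm' hdm6
  have a1 := g2 hg hp hc (hD d hd) (hM m hmM) (hD d' hd') (hM m' hmM') (hN n hn) (hN n' hn')
    (hM x hx) (hM x' hx') hdm hdm' hnd (e1 hd hmM hn hdm hnd) hnd' (e1 hd' hmM' hn' hdm' hnd')
    (hiso d' hd') n1 h1 hdm1 hdm3 hmx hmx'
  have a2 := g2 hg hp hc (hD d hd) (hM m hmM) (hD d'' hd'') (hM m'' hmM'') (hN n hn) (hN n'' hn'')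
    (hM x hx) (hM x'' hx'') hdm hdm'' hnd (e1 hd hmM hn hdm hnd) hnd''
    (e1 hd'' hmM'' hn'' hdm'' hnd'')
    (hiso d'' hd'') n2 h2 hdm2 hdm5 hmx hmx''
  have a3 := g2 hg hp hc (hD d' hd') (hM m' hmM') (hD d'' hd'') (hM m'' hmM'') (hN n' hn')
    (hN n'' hn'')
    (hM x' hx') (hM x'' hx'') hdm' hdm'' hnd' (e1 hd' hmM' hn' hdm' hnd') hnd''
    (e1 hd'' hmM'' hn'' hdm'' hnd'')
    (hiso' d'' hd'') n3 h3 hdm4 hdm6 hmx' hmx''
  exact g3 hg hp hc (hD d hd) (hM m hmM) (hD d' hd') (hM m' hmM') (hD d'' hd'') (hM m'' hmM'')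
    (hN n hn) (hN n' hn') (hN n'' hn'') hdm hdm' hdm'' hnd (e1 hd hmM hn hdm hnd) hnd'
    (e1 hd' hmM' hn' hdm' hnd') hnd'' (e1 hd'' hmM'' hn'' hdm'' hnd'') hdm1 hdm2 hdm3 hdm4 hdm5
    hdm6 (hiso d' hd') (hiso d'' hd'') (hiso' d'' hd'') a1 a2 a3

end

end main

theorem ndml2_stmt (hA : AttachStmt) (hZ : ZStmt) : NDML2Stmt := by
  obtain ⟨B, hB⟩ := hA
  obtain ⟨K0, hZ⟩ := hZ
  refine ⟨(B K0 (B 0 4 2 + 16) 16 + 1) * 2 ^ 2, ?_⟩
  intro V G hg hp c0 c1 c2 c3 c4 N D0 M0 M2 hc hN hD hM hM2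
  have hfew := few_bad hg hp hc hN hD hM hM2
  refine BD.of_sdiff ?_ hfew
  set Bm := M0.filter (fun m => ∃ d ∈ D0, ¬ G.Adj d m ∧ (∀ y ∈ D0, ¬ G.Adj d y) ∧
      (∃ n ∈ N, G.Adj n d) ∧ ∃ x ∈ M0, G.Adj m x) with hBm
  have hM' : ∀ x ∈ M0 \ Bm, TM G c0 c1 c2 c3 c4 x := fun x hx => hM x (sdiff_subset hx)
  have h1 := core (M0 := M0 \ Bm) hg hp hc hN hD hM' hM2 hB hZ ?_
  · refine h1.sub ?_
    intro x hx
    simp only [mem_sdiff, mem_union] at hx ⊢
    tauto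
  · intro m hm d hd hdm hiso hn x hx h
    rw [mem_sdiff] at hm hx
    apply hm.2
    rw [hBm, mem_filter]
    exact ⟨hm.1, d, hd, hdm, hiso, hn, x, hx.1, h⟩

end Pool.Agent.H867.ND
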